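import Pool.Agent.MP_c1891a_nt.G43.SpecA

/-
Stable families of finite sets and their vanishing ideals.
-/

namespace Pool.Agent.MP_c1891a_nt.G43

open Finset Filter Module

section

variable {N : ℕ → ℕ} {K : Type} [NormedField K] {M : Subring (ℕ → ℂ)} {cl : M →+* K} {d : ℕ}
  {S : ℕ → Finset (Fin d → ℂ)}

lemma Stab_zero (h : UF N M cl) {x y : M} (hy : cl y = 0)
    (hxy : ∀ᶠ n in hyperfilter ℕ, ‖x.1 n‖ ≤ ‖y.1 n‖) : cl x = 0 := by
  by_contra hx
  have h0 : 0 < ‖cl x‖ := norm_pos_iff.2 hx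
  have h1 := h.lt y (Real.log (‖cl x‖ / 2)) (by rw [hy, norm_zero]; exact Real.exp_pos _)
  have h2 := h.le x _ ((hxy.and h1).mono fun n hn => hn.1.trans hn.2)
  rw [Real.exp_log (by positivity)] at h2
  linarith

lemma Stab_pt (h : UF N M cl) (hb : ∀ n, ∀ θ ∈ S n, ∀ l, ‖θ l‖ ≤ N n) (u : ℕ → Fin d → ℂ)
    (hu : ∀ᶠ n in hyperfilter ℕ, u n ∈ S n) : ∃ θ : Fin d → M, ∀ n, (fun l => (θ l).1 n) = u n :=
  ⟨fun l => ⟨fun n => u n l, (h.mem _).2 ⟨1, hu.mono fun n hn => by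
    simpa using hb n _ hn l⟩⟩, fun _ => rfl⟩

lemma Stab_big (hN : Tendsto N atTop atTop) {ε : ℝ} (hε : 0 < ε) :
    ∀ᶠ n in hyperfilter ℕ, 2 ≤ (N n : ℝ) ^ ε := by
  have h1 : Tendsto (fun n => (N n : ℝ) ^ ε) atTop atTop :=
    (tendsto_rpow_atTop hε).comp (tendsto_natCast_atTop_atTop.comp hN)
  exact (h1.eventually_ge_atTop 2).filter_mono Nat.hyperfilter_le_atTop

lemma Stab_half (hN : Tendsto N atTop atTop) {α : Type} {S S' : ℕ → Finset α} (hS : Large N S)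
    (h : ∀ᶠ n in hyperfilter ℕ, (S n).card ≤ 2 * (S' n).card) : Large N S' := by
  obtain ⟨ε, hε, hS⟩ := hS
  refine ⟨ε / 2, half_pos hε, ?_⟩
  filter_upwards [hS, h, Stab_big hN (half_pos hε)] with n h1 h2 h3
  have h4 : (N n : ℝ) ^ ε = (N n : ℝ) ^ (ε / 2) * (N n : ℝ) ^ (ε / 2) := by
    rw [← Real.rpow_add' (Nat.cast_nonneg _) (by linarith), add_halves]
  have h5 : ((S n).card : ℝ) ≤ 2 * (S' n).card := by exact_mod_cast h2
  nlinarith

lemma Stab_exists (hS : Large N S) :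
    ∃ S' : ℕ → Finset (Fin d → ℂ), (∀ n, S' n ⊆ S n) ∧ Large N S' ∧ Stab N cl S' := by
  obtain ⟨_, ⟨S', h1, h2, rfl⟩, hm⟩ := set_has_maximal_iff_noetherian.2
    (inferInstance : IsNoetherian (MvPolynomial (Fin d) K) (MvPolynomial (Fin d) K))
    {I | ∃ S' : ℕ → Finset (Fin d → ℂ), (∀ n, S' n ⊆ S n) ∧ Large N S' ∧
      MvPolynomial.vanishingIdeal K (IP cl S') = I} ⟨_, S, fun _ => subset_rfl, hS, rfl⟩
  refine ⟨S', h1, h2, fun T hT hL p hp => ?_⟩
  have h3 : MvPolynomial.vanishingIdeal K (IP cl S') ≤ MvPolynomial.vanishingIdeal K (IP cl T) :=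
    MvPolynomial.vanishingIdeal_anti_mono fun y ⟨θ, h, hy⟩ => ⟨θ, h.mono fun n hn => hT n hn, hy⟩
  have h4 := (h3.eq_or_lt.resolve_right
    (hm _ ⟨T, fun n => (hT n).trans (h1 n), hL, rfl⟩)).ge (show p ∈ _ from hp)
  exact h4

lemma Stab_lift (h : UF N M cl) (p : MvPolynomial (Fin d) K) :
    ∃ (f : ℕ → (Fin d → ℂ) → ℂ) (F : (Fin d → M) → M), ∀ θ : Fin d → M,
      cl (F θ) = MvPolynomial.eval (fun l => cl (θ l)) p ∧
        ∀ n, (F θ).1 n = f n fun l => (θ l).1 n := by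
  obtain ⟨P, rfl⟩ := MvPolynomial.map_surjective cl h.surj p
  refine ⟨fun n u => MvPolynomial.eval₂ ((Pi.evalRingHom (fun _ => ℂ) n).comp M.subtype) u P,
    fun θ => MvPolynomial.eval₂ (RingHom.id M) θ P, fun θ => ⟨?_, fun n => ?_⟩⟩
  · rw [MvPolynomial.eval₂_comp_left, MvPolynomial.eval_map]
    rfl
  · exact MvPolynomial.eval₂_comp_left ((Pi.evalRingHom (fun _ => ℂ) n).comp M.subtype) _ _ P

lemma Stab_side (hN : Tendsto N atTop atTop) (h : UF N M cl) (hS : Large N S) (hs : Stab N cl S)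
    {p q : MvPolynomial (Fin d) K} (hpq : ∀ y ∈ IP cl S, MvPolynomial.eval y (p * q) = 0)
    {f g : ℕ → (Fin d → ℂ) → ℂ} {F G : (Fin d → M) → M}
    (hF : ∀ θ : Fin d → M, cl (F θ) = MvPolynomial.eval (fun l => cl (θ l)) p ∧
      ∀ n, (F θ).1 n = f n fun l => (θ l).1 n)
    (hG : ∀ θ : Fin d → M, cl (G θ) = MvPolynomial.eval (fun l => cl (θ l)) q ∧
      ∀ n, (G θ).1 n = g n fun l => (θ l).1 n)
    (hc : ∀ᶠ n in hyperfilter ℕ,
      (S n).card ≤ 2 * ((S n).filter fun u => ‖f n u‖ ≤ ‖g n u‖).card) :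
    ∀ y ∈ IP cl S, MvPolynomial.eval y p = 0 := by
  refine hs _ (fun n => filter_subset _ _) (Stab_half hN hS hc) p ?_
  rintro y ⟨θ, hθ, hy⟩
  obtain rfl : (fun l => cl (θ l)) = y := funext hy
  have h1 := hpq _ ⟨θ, hθ.mono fun n hn => (mem_filter.1 hn).1, fun _ => rfl⟩
  rw [map_mul, ← (hF θ).1, ← (hG θ).1, ← map_mul] at h1
  have h2 := Stab_zero h (x := F θ * F θ) h1 (hθ.mono fun n hn => by
    change ‖(F θ).1 n * (F θ).1 n‖ ≤ ‖(F θ).1 n * (G θ).1 n‖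
    rw [norm_mul, norm_mul, (hF θ).2, (hG θ).2]
    exact mul_le_mul_of_nonneg_left (mem_filter.1 hn).2 (norm_nonneg _))
  rw [map_mul, mul_self_eq_zero, (hF θ).1] at h2
  exact h2

lemma Stab_prime (hN : Tendsto N atTop atTop) (h : UF N M cl) (hS : Large N S)
    (hb : ∀ n, ∀ θ ∈ S n, ∀ l, ‖θ l‖ ≤ N n) (hs : Stab N cl S) :
    (MvPolynomial.vanishingIdeal K (IP cl S)).IsPrime := by
  refine ⟨fun ht => ?_, fun {p q} hpq => ?_⟩
  · obtain ⟨ε, hε, hS⟩ := hS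
    have h1 : ∀ᶠ n in hyperfilter ℕ, ∃ u, u ∈ S n := by
      filter_upwards [hS, Stab_big hN hε] with n h1 h2
      exact card_pos.1 (by exact_mod_cast (by linarith : (0 : ℝ) < (S n).card))
    obtain ⟨u, hu⟩ := h1.choice
    obtain ⟨θ, hθ⟩ := Stab_pt h hb u hu
    have h2 := (Ideal.eq_top_iff_one _).1 ht (fun l => cl (θ l))
      ⟨θ, hu.mono fun n hn => (hθ n).symm ▸ hn, fun _ => rfl⟩
    simp at h2
  · obtain ⟨f, F, hF⟩ := Stab_lift h p
    obtain ⟨g, G, hG⟩ := Stab_lift h q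
    have h1 : ∀ᶠ n in hyperfilter ℕ,
        (S n).card ≤ 2 * ((S n).filter fun u => ‖f n u‖ ≤ ‖g n u‖).card ∨
          (S n).card ≤ 2 * ((S n).filter fun u => ‖g n u‖ ≤ ‖f n u‖).card :=
      Eventually.of_forall fun n => by
        have h2 := card_filter_add_card_filter_not (s := S n) fun u => ‖f n u‖ ≤ ‖g n u‖
        have h3 : ((S n).filter fun u => ¬ ‖f n u‖ ≤ ‖g n u‖).card ≤
            ((S n).filter fun u => ‖g n u‖ ≤ ‖f n u‖).card :=
          card_le_card (monotone_filter_right _ fun u _ hu => (not_le.1 hu).le)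
        omega
    exact (Ultrafilter.eventually_or.1 h1).imp (Stab_side hN h hS hs hpq hF hG)
      (Stab_side hN h hS hs (p := q) (q := p) (mul_comm p q ▸ hpq) hG hF)

end

lemma Stab_lin {ι α : Type} [Fintype ι] [DecidableEq ι] (v : α → ι → ℂ) (T : Set α)
    (h : ∀ u : ι → α, (∀ b, u b ∈ T) → (Matrix.of fun i b => v (u b) i).det = 0) :
    ∃ q : ι → ℂ, (∀ i, ‖q i‖ ≤ 1) ∧ (∃ i, q i = 1) ∧ ∀ x ∈ T, ∑ i, q i * v x i = 0 := by
  have h1 : Submodule.span ℂ (Set.range fun x : T => v x) < ⊤ := by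
    refine lt_top_iff_ne_top.2 fun ht => ?_
    obtain ⟨κ, a, _, hsp, hli⟩ := exists_linearIndependent' ℂ fun x : T => v x
    have := hli.finite
    have := Fintype.ofFinite κ
    have hc : Fintype.card ι = Fintype.card κ := by
      rw [← finrank_span_eq_card hli, hsp, ht, finrank_top, finrank_fintype_fun_eq_card]
    have e := Fintype.equivOfCardEq hc
    have h2 : IsUnit (Matrix.of fun i b => v (a (e b)) i) :=
      Matrix.linearIndependent_cols_iff_isUnit.1 (hli.comp e e.injective)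
    exact ((Matrix.isUnit_iff_isUnit_det _).1 h2).ne_zero (h _ fun b => (a (e b)).2)
  obtain ⟨φ, h0, hφ⟩ := Submodule.exists_le_ker_of_lt_top _ h1
  have h2 : ∃ i, φ (fun j => if i = j then 1 else 0) ≠ 0 := by
    by_contra! hc
    exact h0 (LinearMap.ext fun x => by simp [φ.pi_apply_eq_sum_univ x, hc])
  obtain ⟨j, hj⟩ := h2
  obtain ⟨i, -, hi⟩ := exists_max_image univ (fun i => ‖φ (fun j => if i = j then 1 else 0)‖)
    ⟨j, mem_univ _⟩
  have h3 := (norm_pos_iff.2 hj).trans_le (hi j (mem_univ _))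
  refine ⟨fun k => φ (fun j => if k = j then 1 else 0) / φ (fun j => if i = j then 1 else 0),
    fun k => ?_, ⟨i, div_self (norm_pos_iff.1 h3)⟩, fun x hx => ?_⟩
  · rw [norm_div]
    exact (div_le_one h3).2 (hi k (mem_univ _))
  · have h4 : φ (v x) = 0 := hφ (Submodule.subset_span ⟨⟨x, hx⟩, rfl⟩)
    rw [φ.pi_apply_eq_sum_univ] at h4
    simp only [mul_comm _ (v x _), ← mul_div_assoc, ← sum_div]
    exact div_eq_zero_iff.2 (Or.inl h4)

theorem sStab : SStab := by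
  intro N K _ _ M cl d S hN h hS hb
  refine ⟨Stab_exists hS, Stab_prime hN h hS hb, fun ι _ _ a _ hd => ?_⟩
  have h1 : ∀ᶠ n in hyperfilter ℕ, ∀ u : ι → Fin d → ℂ, (∀ b, u b ∈ (S n : Set (Fin d → ℂ))) →
      (Matrix.of fun i b => ∏ l, u b l ^ a i l).det = 0 := by
    by_contra hc
    have h2 : ∀ᶠ n in hyperfilter ℕ, ∃ u : ι → Fin d → ℂ, (∀ b, u b ∈ S n) ∧
        (Matrix.of fun i b => ∏ l, u b l ^ a i l).det ≠ 0 :=
      (Ultrafilter.eventually_not.2 hc).mono fun n hn => by simpa using hn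
    obtain ⟨u, hu⟩ := h2.choice
    choose θ hθ using fun b => Stab_pt h hb (fun n => u n b) (hu.mono fun n hn => hn.1 b)
    obtain ⟨n, h3, h4⟩ := ((hd θ fun b => hu.mono fun n hn => (hθ b n).symm ▸ hn.1 b).and hu).exists
    refine h4.2 (Eq.trans ?_ h3)
    simp only [← hθ]
  obtain ⟨q, hq⟩ := (h1.mono fun n hn =>
    Stab_lin (fun (u : Fin d → ℂ) i => ∏ l, u l ^ a i l) _ hn).choice
  obtain ⟨i, hi⟩ := Ultrafilter.eventually_exists_iff.1 (hq.mono fun n hn => hn.2.1)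
  let Q : ι → M := fun k => ⟨fun n => q n k, (h.mem _).2 ⟨0, hq.mono fun n hn => by
    simpa using hn.1 k⟩⟩
  refine ⟨fun k => cl (Q k), fun h0 => ?_, ?_⟩
  · have h2 := Stab_zero h (x := Q i - 1) (map_zero cl) (hi.mono fun n hn => by
      change ‖q n i - 1‖ ≤ _
      rw [hn, sub_self]
      exact le_rfl)
    rw [map_sub, map_one, show cl (Q i) = 0 from congrFun h0 i] at h2
    simp at h2
  · rintro y ⟨θ, hθ, hy⟩
    have h2 := Stab_zero h (x := ∑ k, Q k * ∏ l, θ l ^ a k l) (map_zero cl)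
      ((hθ.and hq).mono fun n hn => by
        have h3 := hn.2.2.2 _ hn.1
        simpa [Q] using h3)
    simpa only [map_sum, map_mul, map_prod, map_pow, hy] using h2

end Pool.Agent.MP_c1891a_nt.G43
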